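import Pool.Agent.R385.JD.Round
import Pool.Agent.R409.ED.Tor

/-!
# Values of the truncated products on the torus
-/

set_option autoImplicit false

namespace Pool.Agent.R385.JD

open MeasureTheory Filter Topology
open Pool.Agent.TH339.MP
open Pool.Agent.R409.ED
open HB (lin continuous_lin)

lemma exists_angle (w : ℂ) (hw : ‖w‖ = 1) : ∃ θ : UnitAddCircle, (fourier 1 θ : ℂ) = w := by
  set u : Circle := ⟨w, mem_sphere_zero_iff_norm.2 hw⟩ with hu
  refine ⟨(AddCircle.homeomorphCircle (T := 1) one_ne_zero).symm u, ?_⟩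
  rw [fourier_one, ← AddCircle.homeomorphCircle_apply one_ne_zero, Homeomorph.apply_symm_apply]

lemma wt_zero (p : Nat.Primes) : wt 1 (p, 0) = ((p : ℕ) : ℝ)⁻¹ := by
  unfold wt
  rw [zero_add, pow_one, Real.rpow_neg_one]

lemma summable_sq : Summable fun p : Nat.Primes => (((p : ℕ) : ℝ) ^ (-2 : ℝ)) :=
  Nat.Primes.summable_rpow.2 (by norm_num)

variable {b : PP → ℂ} {M : ℝ}

/-- the local function is its first term up to `O(p⁻²)` -/
lemma hl_first (hb : ∀ x, ‖b x‖ ≤ M / (x.2 + 1 : ℕ)) (p : Nat.Primes) (θ : UnitAddCircle) :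
    ‖hl b p θ - (fourier 1 θ : ℂ) * (b (p, 0) * (wt 1 (p, 0) : ℂ))‖ ≤
      2 * M * ((p : ℕ) : ℝ) ^ (-2 : ℝ) := by
  have hM := M_nonneg hb
  have hp := two_le_prime p
  have hp0 := prime_pos p
  set q : ℝ := ((p : ℕ) : ℝ)⁻¹ with hq
  have hq0 : 0 < q := by positivity
  have hq1 : q ≤ 1 / 2 := by
    rw [hq, one_div]; exact inv_anti₀ (by norm_num) hp
  have hsum : Summable fun k : ℕ => (b (p, k) * (wt 1 (p, k) : ℂ)) * (fourier ((k : ℤ) + 1) θ : ℂ) :=
    Summable.of_norm_bounded (half_summable M) fun k => hl_term hb p k θ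
  unfold hl
  rw [hsum.tsum_eq_zero_add]
  have h1 : (fourier (((0 : ℕ) : ℤ) + 1) θ : ℂ) = fourier 1 θ := by norm_num
  rw [h1, mul_comm (fourier 1 θ : ℂ), add_sub_cancel_left]
  have hg : HasSum (fun k : ℕ => M * q ^ 2 * q ^ k) (M * q ^ 2 * (1 - q)⁻¹) :=
    (hasSum_geometric_of_lt_one hq0.le (by linarith)).mul_left _
  refine (tsum_of_norm_bounded hg fun k => ?_).trans ?_
  · rw [norm_mul, norm_mul, Complex.norm_real, Real.norm_of_nonneg (wt_nonneg 1 _)]
    have h2 : ‖(fourier ((((k + 1 : ℕ) : ℕ) : ℤ) + 1) θ : ℂ)‖ = 1 := by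
      rw [fourier_apply]
      exact Circle.norm_coe _
    rw [h2, mul_one]
    have h3 : wt 1 (p, k + 1) = q ^ 2 * q ^ k := by
      show (((p : ℕ) : ℝ) ^ (-(1 : ℝ))) ^ (k + 1 + 1) = _
      rw [Real.rpow_neg_one, ← hq]
      ring
    rw [h3, mul_assoc]
    exact mul_le_mul_of_nonneg_right (norm_b_le hb _) (by positivity)
  · have h4 : ((p : ℕ) : ℝ) ^ (-2 : ℝ) = q ^ 2 := by
      rw [hq, inv_pow, ← Real.rpow_natCast, Real.rpow_neg hp0.le]
      norm_num
    rw [h4]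
    have h5 : (1 - q)⁻¹ ≤ 2 := by
      rw [inv_le_comm₀ (by linarith) (by norm_num)]
      linarith
    calc M * q ^ 2 * (1 - q)⁻¹ ≤ M * q ^ 2 * 2 := by gcongr
      _ = 2 * M * q ^ 2 := by ring

lemma exists_cut {f : Nat.Primes → ℝ} (hf : Summable f) {δ : ℝ} (hδ : 0 < δ) (Y0 : ℕ) :
    ∃ P : ℕ, Y0 ≤ P ∧ ∀ G : Finset Nat.Primes, (∀ p ∈ G, P < (p : ℕ)) → |∑ p ∈ G, f p| < δ := by
  obtain ⟨s, hs⟩ := summable_iff_vanishing_norm.1 hf δ hδ
  refine ⟨max Y0 (s.sup fun p => (p : ℕ)), le_max_left _ _, fun G hG => ?_⟩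
  have := hs G (Finset.disjoint_left.2 fun p hp hps => ?_)
  · rwa [Real.norm_eq_abs] at this
  · have h1 := hG p hp
    have h2 : (p : ℕ) ≤ s.sup fun p => (p : ℕ) := Finset.le_sup (f := fun p : Nat.Primes => (p : ℕ)) hps
    exact absurd (h2.trans (le_max_right Y0 _)) (not_le.2 h1)

lemma SY_sum (b : PP → ℂ) (Y : ℕ) (Θ : Nat.Primes → UnitAddCircle) :
    SY b Y (fun p => Θ p.1) = ∑ p ∈ (primes_fin Y).toFinset, hl b p (Θ p) := by
  unfold SY
  exact (Finset.sum_subtype _ (fun p => by rw [Set.Finite.mem_toFinset]; rfl)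
    (fun p => hl b p (Θ p))).symm

/-- every vector is approximated by the truncated products on the torus -/
theorem attain {n : ℕ} {b : Fin n → PP → ℂ} (hb : ∀ j x, ‖b j x‖ ≤ M / (x.2 + 1 : ℕ))
    (hM : 0 ≤ M)
    (hnd : ∀ c : Fin n → ℂ, c ≠ 0 →
      ¬ Summable fun p : Nat.Primes => ‖∑ j, c j * (b j (p, 0) * (wt 1 (p, 0) : ℂ))‖)
    (z : Fin n → ℂ) {ε : ℝ} (hε : 0 < ε) (Y0 : ℕ) :
    ∃ Y : ℕ, Y0 ≤ Y ∧ ∃ θ : UnitAddTorus (PY Y), ∀ j, ‖SY (b j) Y θ - z j‖ < ε := by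
  classical
  set v : Nat.Primes → EuclideanSpace ℂ (Fin n) :=
    fun p => WithLp.toLp 2 fun j => b j (p, 0) * (wt 1 (p, 0) : ℂ) with hv
  have hvn : ∀ p, ‖v p‖ ^ 2 ≤ n * M ^ 2 * ((p : ℕ) : ℝ) ^ (-2 : ℝ) := by
    intro p
    have hp0 := prime_pos p
    rw [EuclideanSpace.norm_sq_eq]
    have : ∀ j ∈ (Finset.univ : Finset (Fin n)), ‖v p j‖ ^ 2 ≤ M ^ 2 * ((p : ℕ) : ℝ) ^ (-2 : ℝ) := by
      intro j _
      simp only [hv]
      rw [norm_mul, Complex.norm_real, Real.norm_of_nonneg (wt_nonneg 1 _), wt_zero, mul_pow]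
      have h4 : ((p : ℕ) : ℝ) ^ (-2 : ℝ) = (((p : ℕ) : ℝ)⁻¹) ^ 2 := by
        rw [inv_pow, ← Real.rpow_natCast, Real.rpow_neg hp0.le]
        norm_num
      rw [h4]
      have := norm_b_le (hb j) (p, 0)
      gcongr
    refine (Finset.sum_le_sum this).trans ?_
    rw [Finset.sum_const, Finset.card_univ, Fintype.card_fin, nsmul_eq_mul, mul_assoc]
  have hS1 : Summable fun p => ‖v p‖ ^ 2 :=
    Summable.of_nonneg_of_le (fun _ => by positivity) hvn (summable_sq.mul_left _)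
  have hS2 : Summable fun p : Nat.Primes => 2 * M * ((p : ℕ) : ℝ) ^ (-2 : ℝ) := summable_sq.mul_left _
  obtain ⟨P1, hP1, hc1⟩ := exists_cut hS1 (δ := (ε / 4) ^ 2) (by positivity) Y0
  obtain ⟨P, hP, hc2⟩ := exists_cut hS2 (δ := ε / 4) (by positivity) P1
  have hc1' : ∀ G : Finset Nat.Primes, (∀ p ∈ G, P < (p : ℕ)) → ∑ p ∈ G, ‖v p‖ ^ 2 < (ε / 4) ^ 2 :=
    fun G hG => (le_abs_self _).trans_lt (hc1 G fun p hp => lt_of_le_of_lt hP (hG p hp))
  -- the disc combinations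
  have hvS : ∀ c : Fin n → ℂ, c ≠ 0 →
      ¬ Summable fun i : ({p : Nat.Primes | (p : ℕ) ≤ P}ᶜ : Set Nat.Primes) => ‖∑ j, c j * v i j‖ := by
    intro c hc h
    refine hnd c hc ?_
    exact ((primes_fin P).summable_compl_iff (f := fun p => ‖∑ j, c j * v p j‖)).1 h
  set z' : EuclideanSpace ℂ (Fin n) := WithLp.toLp 2 fun j => z j - SY (b j) P (fun _ => 0) with hz'
  obtain ⟨F, a, hF, ha, hFa⟩ := disc_dense _ v hvS z' (show (0 : ℝ) < ε / 4 by positivity)
  set Y : ℕ := max P (F.sup fun p => (p : ℕ)) with hY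
  set G : Finset Nat.Primes := (primes_fin Y).toFinset.filter fun p => P < (p : ℕ) with hG
  have hGP : ∀ p ∈ G, P < (p : ℕ) := fun p hp => (Finset.mem_filter.1 hp).2
  have hFG : F ⊆ G := by
    intro p hp
    rw [hG, Finset.mem_filter, Set.Finite.mem_toFinset]
    have h1 : (p : ℕ) ≤ F.sup fun p => (p : ℕ) := Finset.le_sup (f := fun p : Nat.Primes => (p : ℕ)) hp
    refine ⟨h1.trans (le_max_right _ _), ?_⟩
    exact not_le.1 (hF p hp)
  set a' : Nat.Primes → ℂ := fun p => if p ∈ F then a p else 0 with ha'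
  have ha'1 : ∀ p, ‖a' p‖ ≤ 1 := by
    intro p
    simp only [ha']
    split_ifs
    exacts [ha p, by simp]
  have hsumF : ∑ p ∈ G, a' p • v p = ∑ p ∈ F, a p • v p := by
    rw [← Finset.sum_subset hFG]
    · exact Finset.sum_congr rfl fun p hp => by simp only [ha', if_pos hp]
    · intro p _ hp
      simp only [ha', if_neg hp, zero_smul]
  obtain ⟨w, hw, hwr⟩ := round G v a' ha'1
  choose ang hang using fun p => exists_angle (w p) (hw p)
  set Θ : Nat.Primes → UnitAddCircle := fun p => if (p : ℕ) ≤ P then 0 else ang p with hΘ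
  refine ⟨Y, (hP1.trans hP).trans (le_max_left _ _), fun p => Θ p.1, fun j => ?_⟩
  rw [SY_sum]
  have hsplit : ∑ p ∈ (primes_fin Y).toFinset, hl (b j) p (Θ p) =
      SY (b j) P (fun _ => 0) + ∑ p ∈ G, hl (b j) p (Θ p) := by
    have h1 := SY_sum (b j) P (fun _ => 0)
    rw [h1, ← Finset.sum_filter_add_sum_filter_not (primes_fin Y).toFinset (fun p => (p : ℕ) ≤ P)]
    congr 1
    · have h2 : (primes_fin Y).toFinset.filter (fun p : Nat.Primes => (p : ℕ) ≤ P) =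
          (primes_fin P).toFinset := by
        ext p
        simp only [Finset.mem_filter, Set.Finite.mem_toFinset, Set.mem_ofPred_eq]
        constructor
        · exact fun h => h.2
        · exact fun h => ⟨h.trans (le_max_left _ _), h⟩
      rw [h2]
      refine Finset.sum_congr rfl fun p hp => ?_
      have h3 : (p : ℕ) ≤ P := by simpa [Set.Finite.mem_toFinset] using hp
      simp only [hΘ, if_pos h3]
    · refine Finset.sum_congr ?_ fun _ _ => rfl
      rw [hG]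
      ext p
      simp [Finset.mem_filter]
  rw [hsplit]
  have e1 : ‖∑ p ∈ G, hl (b j) p (Θ p) - ∑ p ∈ G, w p * v p j‖ ≤ ε / 4 := by
    rw [← Finset.sum_sub_distrib]
    refine (norm_sum_le _ _).trans ?_
    have h1 : ∀ p ∈ G, ‖hl (b j) p (Θ p) - w p * v p j‖ ≤ 2 * M * ((p : ℕ) : ℝ) ^ (-2 : ℝ) := by
      intro p hp
      have h2 : Θ p = ang p := by
        simp only [hΘ, if_neg (not_le.2 (hGP p hp))]
      rw [h2, ← hang p]
      exact hl_first (hb j) p (ang p)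
    refine (Finset.sum_le_sum h1).trans ?_
    exact ((le_abs_self _).trans_lt (hc2 G hGP)).le
  have e2 : ‖∑ p ∈ G, w p * v p j - ∑ p ∈ G, a' p * v p j‖ ≤ ε / 4 := by
    have h1 : ‖∑ p ∈ G, (w p - a' p) • v p‖ ≤ ε / 4 := by
      have h2 := hwr.trans (hc1' G hGP).le
      exact (sq_le_sq₀ (norm_nonneg _) (by positivity)).1 h2
    have h3 : ∑ p ∈ G, w p * v p j - ∑ p ∈ G, a' p * v p j =
        (∑ p ∈ G, (w p - a' p) • v p) j := by
      rw [← Finset.sum_sub_distrib, WithLp.ofLp_sum, Finset.sum_apply]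
      refine Finset.sum_congr rfl fun p _ => ?_
      simp [sub_mul]
    rw [h3]
    exact (PiLp.norm_apply_le _ _).trans h1
  have e3 : ‖∑ p ∈ G, a' p * v p j - (z j - SY (b j) P (fun _ => 0))‖ < ε / 4 := by
    have h3 : ∑ p ∈ G, a' p * v p j - (z j - SY (b j) P (fun _ => 0)) =
        (∑ p ∈ F, a p • v p - z') j := by
      rw [← hsumF]
      simp only [hz', PiLp.sub_apply, WithLp.ofLp_sum, Finset.sum_apply, PiLp.smul_apply,
        smul_eq_mul]
    rw [h3]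
    exact (PiLp.norm_apply_le _ _).trans_lt hFa
  have e4 : SY (b j) P (fun _ => 0) + ∑ p ∈ G, hl (b j) p (Θ p) - z j =
      (∑ p ∈ G, hl (b j) p (Θ p) - ∑ p ∈ G, w p * v p j) +
      (∑ p ∈ G, w p * v p j - ∑ p ∈ G, a' p * v p j) +
      (∑ p ∈ G, a' p * v p j - (z j - SY (b j) P (fun _ => 0))) := by ring
  rw [e4]
  refine (norm_add₃_le).trans_lt ?_
  linarith

end Pool.Agent.R385.JD
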