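import Pool.Agent.R385.JD.Lower

/-!
# The dichotomy
-/

set_option autoImplicit false

namespace Pool.Agent.R385.JD

open MeasureTheory Filter Topology
open Pool.Agent.TH339.MP
open Pool.Agent.R409.ED
open Pool.Agent.W350.Edge (divSet)
open scoped ENNReal

section one
variable {b : PP → ℂ} {M : ℝ}

/-- radial limits -/
lemma rad (hb : ∀ x, ‖b x‖ ≤ M / (x.2 + 1 : ℕ)) {τ : ℝ} (hτ : τ ∉ divSet (ap b)) :
    Tendsto (fun x : ℝ => FF b (1 + τ * Complex.I + x)) (𝓝[>] 0) (𝓝 (bl b τ)) := by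
  have h1 := bl_angle hb hτ 1
  have h2 : Tendsto (fun x : ℝ => (x : ℂ)) (𝓝[>] 0)
      (𝓝[{z : ℂ | 0 < z.re ∧ ‖z‖ ≤ 1 * z.re}] 0) := by
    rw [tendsto_nhdsWithin_iff]
    constructor
    · have h4 := (Complex.continuous_ofReal.tendsto 0)
      rw [Complex.ofReal_zero] at h4
      exact h4.mono_left nhdsWithin_le_nhds
    · filter_upwards [self_mem_nhdsWithin] with x hx
      have h3 : (0 : ℝ) < x := hx
      refine ⟨by rw [Complex.ofReal_re]; exact h3, ?_⟩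
      rw [Complex.norm_real, Real.norm_of_nonneg h3.le, Complex.ofReal_re, one_mul]
  exact h1.comp h2

/-- a summable array has a bounded boundary function -/
theorem bl_bounded (hb : ∀ x, ‖b x‖ ≤ M / (x.2 + 1 : ℕ))
    (hs : Summable fun p : Nat.Primes => ‖b (p, 0) * (wt 1 (p, 0) : ℂ)‖) :
    ∃ C : ℝ, ∀ᵐ t : ℝ, ‖bl b t‖ ≤ C := by
  refine ⟨∑' p : Nat.Primes, ‖b (p, 0) * (wt 1 (p, 0) : ℂ)‖ + ∑' x : PP, M * wt 1 (sh x), ?_⟩
  filter_upwards [ae_notMem hb] with t ht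
  refine le_of_tendsto (rad hb ht).norm ?_
  filter_upwards [self_mem_nhdsWithin] with x hx
  have hx0 : (0 : ℝ) < x := hx
  set s : ℂ := 1 + t * Complex.I + x with hs'
  have hre : s.re = 1 + x := by simp [hs']
  have hs1 : 1 < s.re := by rw [hre]; linarith
  rw [FF_split hb hs1]
  refine (norm_add_le _ _).trans (add_le_add ?_ ?_)
  · refine tsum_of_norm_bounded hs.hasSum fun p => ?_
    rw [norm_tm, norm_mul, Complex.norm_real, Real.norm_of_nonneg (wt_nonneg 1 _)]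
    exact mul_le_mul_of_nonneg_left (wt_anti hs1.le _) (norm_nonneg _)
  · unfold hpart
    exact tsum_of_norm_bounded (wt_sh_summable.mul_left M).hasSum fun p => norm_tm_sh hb hs1.le p

end one

variable {M : ℝ} {r : ℕ} {b : Fin r → PP → ℂ}

/-- linear combinations -/
noncomputable def cb (c : Fin r → ℂ) (b : Fin r → PP → ℂ) (x : PP) : ℂ := ∑ j, c j * b j x

lemma cb_bound (hb : ∀ j x, ‖b j x‖ ≤ M / (x.2 + 1 : ℕ)) (c : Fin r → ℂ) (x : PP) :
    ‖cb c b x‖ ≤ ((∑ j, ‖c j‖) * M) / (x.2 + 1 : ℕ) := by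
  unfold cb
  rw [mul_div_assoc, Finset.sum_mul]
  refine norm_sum_le_of_le _ fun j _ => ?_
  rw [norm_mul]
  exact mul_le_mul_of_nonneg_left (hb j x) (norm_nonneg _)

lemma bl_cb (hb : ∀ j x, ‖b j x‖ ≤ M / (x.2 + 1 : ℕ)) (c : Fin r → ℂ) :
    ∀ᵐ t : ℝ, bl (cb c b) t = ∑ j, c j * bl (b j) t := by
  filter_upwards [ae_notMem (cb_bound hb c), ae_all_iff.2 fun j => ae_notMem (hb j)] with t ht ht'
  have h1 := rad (cb_bound hb c) ht
  have h2 : Tendsto (fun x : ℝ => ∑ j, c j * FF (b j) (1 + t * Complex.I + x))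
      (𝓝[>] 0) (𝓝 (∑ j, c j * bl (b j) t)) :=
    tendsto_finsetSum _ fun j _ => (rad (hb j) (ht' j)).const_mul _
  refine tendsto_nhds_unique h1 (h2.congr' ?_)
  filter_upwards [self_mem_nhdsWithin] with x hx
  have hx' : (0 : ℝ) < x := hx
  have hs : 1 < ((1 : ℂ) + t * Complex.I + x).re := by simp [hx']
  have h3 := hasSum_sum (s := Finset.univ) fun j _ =>
    ((summable_tm (hb j) hs).hasSum.mul_left (c j))
  have h5 : (fun y => ∑ j, c j * tm (b j) ((1 : ℂ) + t * Complex.I + x) y) =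
      tm (cb c b) ((1 : ℂ) + t * Complex.I + x) := by
    funext y
    unfold Pool.Agent.TH339.MP.tm cb
    rw [Finset.sum_mul]
    exact Finset.sum_congr rfl fun j _ => by ring
  rw [h5] at h3
  exact h3.tsum_eq.symm

/-- `m` linear forms in the boundary values come near every vector with positive lower density,
uniformly in all long intervals -/
def Dense {m : ℕ} (f : Fin m → ℝ → ℂ) : Prop :=
  ∀ (z : Fin m → ℂ) (ε : ℝ), 0 < ε → ∃ δ : ℝ, 0 < δ ∧ ∃ T₀ : ℝ, ∀ a T : ℝ, T₀ ≤ T →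
    ENNReal.ofReal (δ * T) ≤ volume {t ∈ Set.Icc a (a + T) | ∀ i, ‖f i t - z i‖ < ε}

lemma Dense.congr {m : ℕ} {f g : Fin m → ℝ → ℂ} (h : Dense f) (hfg : ∀ i, ∀ᵐ t : ℝ, f i t = g i t) :
    Dense g := by
  intro z ε hε
  obtain ⟨δ, hδ, T₀, h1⟩ := h z ε hε
  refine ⟨δ, hδ, T₀, fun a T hT => (h1 a T hT).trans (measure_mono_ae ?_)⟩
  filter_upwards [ae_all_iff.2 hfg] with t ht hmem
  exact ⟨hmem.1, fun i => by rw [← ht i]; exact hmem.2 i⟩

/-- a bounded combination excludes density -/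
lemma not_dense {m : ℕ} {f : Fin m → ℝ → ℂ} {d : Fin m → ℂ} (hd : d ≠ 0) {C : ℝ}
    (hC : ∀ᵐ t : ℝ, ‖∑ i, d i * f i t‖ ≤ C) : ¬ Dense f := by
  classical
  intro h
  obtain ⟨i₀, hi₀⟩ : ∃ i, d i ≠ 0 := by
    by_contra hcon
    push Not at hcon
    exact hd (funext hcon)
  set D : ℝ := ∑ i, ‖d i‖ with hD
  have hD0 : 0 ≤ D := Finset.sum_nonneg fun _ _ => norm_nonneg _
  set z : Fin m → ℂ := fun i => if i = i₀ then ((|C| + D + 1 : ℝ) : ℂ) / d i₀ else 0 with hz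
  obtain ⟨δ, hδ, T₀, h1⟩ := h z 1 one_pos
  have h2 := h1 0 (max T₀ 1) (le_max_left _ _)
  have h3 : volume {t ∈ Set.Icc (0 : ℝ) (0 + max T₀ 1) | ∀ i, ‖f i t - z i‖ < 1} = 0 := by
    rw [← nonpos_iff_eq_zero]
    have h0 : volume {t : ℝ | ¬ ‖∑ i, d i * f i t‖ ≤ C} = 0 := ae_iff.1 hC
    rw [← h0]
    refine measure_mono fun t ht hle => ?_
    have h4 : ∑ i, d i * z i = ((|C| + D + 1 : ℝ) : ℂ) := by
      simp only [hz, mul_ite, mul_zero, Finset.sum_ite_eq', Finset.mem_univ, if_true]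
      field_simp
    have h5 : ‖∑ i, d i * (f i t - z i)‖ ≤ D := by
      refine norm_sum_le_of_le _ fun i _ => ?_
      rw [norm_mul]
      exact mul_le_of_le_one_right (norm_nonneg _) (ht.2 i).le
    have h6 : ∑ i, d i * z i = ∑ i, d i * f i t - ∑ i, d i * (f i t - z i) := by
      rw [← Finset.sum_sub_distrib]
      exact Finset.sum_congr rfl fun i _ => by ring
    have h7 : ‖∑ i, d i * z i‖ ≤ C + D := by
      rw [h6]
      exact (norm_sub_le _ _).trans (add_le_add hle h5)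
    rw [h4, Complex.norm_real, Real.norm_of_nonneg (by positivity)] at h7
    linarith [le_abs_self C]
  rw [h3, nonpos_iff_eq_zero, ENNReal.ofReal_eq_zero] at h2
  have : 0 < δ * max T₀ 1 := mul_pos hδ (lt_of_lt_of_le one_pos (le_max_right _ _))
  linarith

/-- **The dichotomy.** -/
theorem dichotomy (hb : ∀ j x, ‖b j x‖ ≤ M / (x.2 + 1 : ℕ)) (hM : 0 ≤ M) {m : ℕ}
    (c : Fin m → Fin r → ℂ) :
    ((∀ d : Fin m → ℂ, d ≠ 0 → ¬ Summable fun p : Nat.Primes =>
        ‖∑ i, d i * ∑ j, c i j * (b j (p, 0) * (wt 1 (p, 0) : ℂ))‖) ↔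
      Dense fun i t => ∑ j, c i j * bl (b j) t) ∧
    ∀ d : Fin m → ℂ, (Summable fun p : Nat.Primes =>
        ‖∑ i, d i * ∑ j, c i j * (b j (p, 0) * (wt 1 (p, 0) : ℂ))‖) ↔
      ∃ C : ℝ, ∀ᵐ t : ℝ, ‖∑ i, d i * ∑ j, c i j * bl (b j) t‖ ≤ C := by
  classical
  -- the bounds of the arrays `c i`
  set M' : ℝ := (∑ i, ∑ j, ‖c i j‖) * M with hM'
  have hM'0 : 0 ≤ M' := mul_nonneg (Finset.sum_nonneg fun _ _ => Finset.sum_nonneg fun _ _ =>
    norm_nonneg _) hM
  have hcb : ∀ i x, ‖cb (c i) b x‖ ≤ M' / (x.2 + 1 : ℕ) := by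
    intro i x
    refine (cb_bound hb (c i) x).trans ?_
    have h1 : ∑ j, ‖c i j‖ ≤ ∑ i, ∑ j, ‖c i j‖ :=
      Finset.single_le_sum (f := fun i => ∑ j, ‖c i j‖)
        (fun _ _ => Finset.sum_nonneg fun _ _ => norm_nonneg _) (Finset.mem_univ i)
    exact div_le_div_of_nonneg_right (mul_le_mul_of_nonneg_right h1 hM) (Nat.cast_nonneg _)
  have e1 : ∀ i (p : Nat.Primes), ∑ j, c i j * (b j (p, 0) * (wt 1 (p, 0) : ℂ)) =
      cb (c i) b (p, 0) * (wt 1 (p, 0) : ℂ) := by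
    intro i p
    unfold cb
    rw [Finset.sum_mul]
    exact Finset.sum_congr rfl fun j _ => by ring
  simp_rw [e1]
  have hae : ∀ i, ∀ᵐ t : ℝ, bl (cb (c i) b) t = ∑ j, c i j * bl (b j) t := fun i => bl_cb hb (c i)
  -- summable combinations are bounded
  have hbd : ∀ d : Fin m → ℂ, (Summable fun p : Nat.Primes =>
      ‖∑ i, d i * (cb (c i) b (p, 0) * (wt 1 (p, 0) : ℂ))‖) →
      ∃ C : ℝ, ∀ᵐ t : ℝ, ‖∑ i, d i * ∑ j, c i j * bl (b j) t‖ ≤ C := by
    intro d hd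
    have h1 : (fun p : Nat.Primes => ‖∑ i, d i * (cb (c i) b (p, 0) * (wt 1 (p, 0) : ℂ))‖) =
        fun p : Nat.Primes => ‖cb d (fun i => cb (c i) b) (p, 0) * (wt 1 (p, 0) : ℂ)‖ := by
      funext p
      congr 1
      conv_rhs => unfold cb
      rw [Finset.sum_mul]
      refine Finset.sum_congr rfl fun i _ => ?_
      unfold cb
      ring
    rw [h1] at hd
    obtain ⟨C, hC⟩ := bl_bounded (cb_bound hcb d) hd
    refine ⟨C, ?_⟩
    filter_upwards [hC, bl_cb hcb d, ae_all_iff.2 hae] with t h2 h3 h4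
    rw [h3] at h2
    simpa only [h4] using h2
  refine ⟨⟨fun h => ?_, fun h d hd hs => ?_⟩, fun d => ⟨hbd d, fun h => ?_⟩⟩
  · exact Dense.congr (fun z ε hε => lower hcb hM'0 h z hε) hae
  · obtain ⟨C, hC⟩ := hbd d hs
    exact not_dense hd hC h
  · by_contra hns
    -- the single array `d`
    set b' : Fin 1 → PP → ℂ := fun _ => cb d (fun i => cb (c i) b) with hb'
    have hb'1 : ∀ j x, ‖b' j x‖ ≤ ((∑ i, ‖d i‖) * M') / (x.2 + 1 : ℕ) := fun _ x => cb_bound hcb d x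
    have hD : Dense fun (j : Fin 1) t => bl (b' j) t := by
      intro z ε hε
      refine lower hb'1 (mul_nonneg (Finset.sum_nonneg fun _ _ => norm_nonneg _) hM'0) ?_ z hε
      intro e he hsum
      refine hns ?_
      have he0 : e 0 ≠ 0 := by
        intro h0
        exact he (funext fun j => by rw [Subsingleton.elim j 0, h0]; rfl)
      have h2 : (fun p : Nat.Primes => ‖∑ i, d i * (cb (c i) b (p, 0) * (wt 1 (p, 0) : ℂ))‖) =
          fun p : Nat.Primes => ‖e 0‖⁻¹ * ‖∑ j, e j * (b' j (p, 0) * (wt 1 (p, 0) : ℂ))‖ := by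
        funext p
        rw [Fin.sum_univ_one, norm_mul, ← mul_assoc, inv_mul_cancel₀ (norm_ne_zero_iff.2 he0), one_mul]
        congr 1
        simp only [hb']
        conv_rhs => unfold cb
        rw [Finset.sum_mul]
        refine Finset.sum_congr rfl fun i _ => ?_
        unfold cb
        ring
      rw [h2]
      exact hsum.mul_left _
    obtain ⟨C, hC⟩ := h
    refine not_dense (d := fun _ => 1) (by
      intro h0
      exact one_ne_zero (congrFun h0 0)) (C := C) ?_ hD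
    filter_upwards [hC, bl_cb hcb d, ae_all_iff.2 hae] with t h2 h3 h4
    rw [Fin.sum_univ_one, one_mul]
    simp only [hb', h3, h4]
    exact h2

end Pool.Agent.R385.JD
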