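import Pool.Agent.R385.JD.Attain

/-!
# Independence of the factors on the torus
-/

set_option autoImplicit false

namespace Pool.Agent.R385.JD

open MeasureTheory Filter Topology ProbabilityTheory
open Pool.Agent.TH339.MP
open Pool.Agent.R409.ED
open HB (lin continuous_lin)
open scoped ENNReal

variable {b : PP → ℂ} {M : ℝ}

/-- restriction to fewer primes -/
def rs {Y1 Y : ℕ} (h : Y1 ≤ Y) (θ : UnitAddTorus (PY Y)) : UnitAddTorus (PY Y1) :=
  fun p => θ ⟨p.1, p.2.trans h⟩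

lemma continuous_rs {Y1 Y : ℕ} (h : Y1 ≤ Y) : Continuous (rs h) :=
  continuous_pi fun _ => continuous_apply _

/-- the part of the primes greater than `Y1` -/
noncomputable def RY (b : PP → ℂ) (Y1 Y : ℕ) (θ : UnitAddTorus (PY Y)) : ℂ :=
  ∑ p : PY Y, if (p.1 : ℕ) ≤ Y1 then 0 else hl b p.1 (θ p)

lemma continuous_RY (hb : ∀ x, ‖b x‖ ≤ M / (x.2 + 1 : ℕ)) (Y1 Y : ℕ) : Continuous (RY b Y1 Y) := by
  unfold RY
  refine continuous_finsetSum _ fun p _ => ?_
  split_ifs
  · exact continuous_const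
  · exact (continuous_hl hb p.1).comp (continuous_apply p)

lemma SY_eq (b : PP → ℂ) {Y1 Y : ℕ} (h : Y1 ≤ Y) (θ : UnitAddTorus (PY Y)) :
    SY b Y θ = SY b Y1 (rs h θ) + RY b Y1 Y θ := by
  classical
  have h1 : SY b Y1 (rs h θ) = ∑ p : PY Y, if (p.1 : ℕ) ≤ Y1 then hl b p.1 (θ p) else 0 := by
    unfold SY rs
    refine Fintype.sum_of_injective (fun q : PY Y1 => (⟨q.1, q.2.trans h⟩ : PY Y)) ?_ _ _ ?_ ?_
    · intro p q hpq
      simp only [Subtype.mk.injEq] at hpq
      exact Subtype.ext hpq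
    · intro p hp
      rw [if_neg]
      intro h2
      exact hp ⟨⟨p.1, h2⟩, rfl⟩
    · intro q
      rw [if_pos q.2]
  rw [h1]
  unfold SY RY
  rw [← Finset.sum_add_distrib]
  refine Finset.sum_congr rfl fun p _ => ?_
  split_ifs <;> simp

lemma rs_lin {Y1 Y : ℕ} (h : Y1 ≤ Y) (t : ℝ) : rs h (lin (lY Y) t) = lin (lY Y1) t := rfl

lemma RY_lin (hb : ∀ x, ‖b x‖ ≤ M / (x.2 + 1 : ℕ)) {Y1 Y : ℕ} (h : Y1 ≤ Y) (t : ℝ) :
    RY b Y1 Y (lin (lY Y) t) = QY b Y t - QY b Y1 t := by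
  have h1 := SY_eq b h (lin (lY Y) t)
  rw [rs_lin, SY_lin hb, SY_lin hb] at h1
  rw [h1]; ring

/-- independence -/
theorem indep {n : ℕ} {b : Fin n → PP → ℂ} (hb : ∀ j x, ‖b j x‖ ≤ M / (x.2 + 1 : ℕ))
    {Y1 Y : ℕ} (h : Y1 ≤ Y) {G : UnitAddTorus (PY Y1) → ℝ} (hG : Continuous G)
    {H : (Fin n → ℂ) → ℝ} (hH : Continuous H) :
    ∫ θ : UnitAddTorus (PY Y), G (rs h θ) * H (fun j => RY (b j) Y1 Y θ) =
      (∫ θ : UnitAddTorus (PY Y), G (rs h θ)) *
        ∫ θ : UnitAddTorus (PY Y), H (fun j => RY (b j) Y1 Y θ) := by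
  classical
  set S : Finset (PY Y) := Finset.univ.filter fun p => (p.1 : ℕ) ≤ Y1 with hS
  set T : Finset (PY Y) := Finset.univ.filter fun p => ¬ (p.1 : ℕ) ≤ Y1 with hT
  have hmem : ∀ q : PY Y1, (⟨q.1, q.2.trans h⟩ : PY Y) ∈ S := fun q => by
    rw [hS, Finset.mem_filter]
    exact ⟨Finset.mem_univ _, q.2⟩
  have hI : iIndepFun (fun (p : PY Y) (θ : UnitAddTorus (PY Y)) => θ p) volume := by
    rw [show (volume : Measure (UnitAddTorus (PY Y))) = Measure.pi fun _ => volume from rfl]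
    exact iIndepFun_pi (X := fun _ => id) fun _ => aemeasurable_id
  have hST := hI.indepFun_finset S T (by
    rw [Finset.disjoint_left]
    intro p h1 h2
    exact (Finset.mem_filter.1 h2).2 (Finset.mem_filter.1 h1).2) (fun p => measurable_pi_apply p)
  set φ : (S → UnitAddCircle) → ℝ := fun y => G fun q => y ⟨_, hmem q⟩ with hφ
  set ψ : (T → UnitAddCircle) → ℝ := fun y => H fun j => ∑ p : T, hl (b j) p.1.1 (y p) with hψ
  have hφc : Continuous φ := hG.comp (continuous_pi fun _ => continuous_apply _)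
  have hψc : Continuous ψ := hH.comp (continuous_pi fun j =>
    continuous_finsetSum _ fun p _ => (continuous_hl (hb j) p.1.1).comp (continuous_apply p))
  have h2 := hST.comp hφc.measurable hψc.measurable
  have e2 : (ψ ∘ fun (a : UnitAddTorus (PY Y)) (i : T) => a i) =
      fun θ => H (fun j => RY (b j) Y1 Y θ) := by
    funext θ
    simp only [Function.comp_apply, hψ]
    congr 1
    funext j
    unfold RY
    rw [Finset.sum_coe_sort T (fun p => hl (b j) p.1 (θ p)), hT, Finset.sum_filter]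
    refine Finset.sum_congr rfl fun p _ => ?_
    split_ifs <;> simp_all
  have e1 : (φ ∘ fun (a : UnitAddTorus (PY Y)) (i : S) => a i) = fun θ => G (rs h θ) := rfl
  rw [e1, e2] at h2
  refine h2.integral_fun_mul_eq_mul_integral ?_ ?_
  · exact (hG.comp (continuous_rs h)).aestronglyMeasurable
  · exact (hH.comp (continuous_pi fun j => continuous_RY (hb j) Y1 Y)).aestronglyMeasurable

/-- real Kronecker-Weyl -/
theorem kwR (Y : ℕ) {G : UnitAddTorus (PY Y) → ℝ} (hG : Continuous G) :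
    Tendsto (rav fun t => G (lin (lY Y) t)) WF (𝓝 (∫ θ, G θ)) := by
  have h1 := kw (lY Y) (lY_indep Y) ⟨fun θ => ((G θ : ℝ) : ℂ), Complex.continuous_ofReal.comp hG⟩
  have h2 := (Complex.continuous_re.tendsto _).comp h1
  have h3 : (∫ θ, ((G θ : ℝ) : ℂ)).re = ∫ θ, G θ := by
    rw [integral_complex_ofReal, Complex.ofReal_re]
  simp only [ContinuousMap.coe_mk] at h2
  rw [h3] at h2
  refine h2.congr fun x => ?_
  rw [rav_wav]
  rfl

/-- the mean square distance on long intervals -/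
lemma dist_win (hb : ∀ x, ‖b x‖ ≤ M / (x.2 + 1 : ℕ)) {Y : ℕ} (hY : 2 ≤ Y) {a T : ℝ} (hT : 1 ≤ T) :
    ∫⁻ u in Set.Icc a (a + T), ENNReal.ofReal (‖bl b u - QY b Y u‖ ^ 2) ≤
      ENNReal.ofReal (2 * (64800 * M ^ 2 / Real.log Y) * T) := by
  have h0 : 0 < Real.log Y := Real.log_pos (by exact_mod_cast (by omega : 1 < Y))
  have := cover' (fun u => ENNReal.ofReal (‖bl b u - QY b Y u‖ ^ 2)) one_pos
    (B := 64800 * M ^ 2 / Real.log Y) (by positivity) (fun t => dist_QY hb hY t) (a := a) hT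
  refine this.trans (le_of_eq ?_)
  norm_num

/-- the mean square of the remainder -/
theorem RY_sq (hb : ∀ x, ‖b x‖ ≤ M / (x.2 + 1 : ℕ)) {Y1 Y : ℕ} (h1 : 2 ≤ Y1) (h : Y1 ≤ Y) :
    ∫ θ : UnitAddTorus (PY Y), ‖RY b Y1 Y θ‖ ^ 2 ≤ 8 * (64800 * M ^ 2 / Real.log Y1) := by
  have hl1 : 0 < Real.log Y1 := Real.log_pos (by exact_mod_cast (by omega : 1 < Y1))
  have hl2 : Real.log Y1 ≤ Real.log Y := Real.log_le_log (by positivity) (by exact_mod_cast h)
  have hlim := kwR Y (G := fun θ => ‖RY b Y1 Y θ‖ ^ 2) ((continuous_RY hb Y1 Y).norm.pow 2)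
  refine le_of_tendsto hlim (ev_of 1 fun a T hT => ?_)
  simp only [RY_lin hb h]
  unfold rav
  simp only
  have hT0 : 0 < T := by linarith
  have hcont : Continuous fun t => ‖QY b Y t - QY b Y1 t‖ ^ 2 :=
    ((continuous_QY hb Y).sub (continuous_QY hb Y1)).norm.pow 2
  rw [inv_mul_le_iff₀ hT0, intervalIntegral.integral_of_le (by linarith),
    ← integral_Icc_eq_integral_Ioc,
    integral_eq_lintegral_of_nonneg_ae (Eventually.of_forall fun _ => by positivity)
      hcont.aestronglyMeasurable]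
  refine ENNReal.toReal_le_of_le_ofReal (by positivity) ?_
  have hpt : ∀ u, ENNReal.ofReal (‖QY b Y u - QY b Y1 u‖ ^ 2) ≤
      2 * ENNReal.ofReal (‖bl b u - QY b Y u‖ ^ 2) + 2 * ENNReal.ofReal (‖bl b u - QY b Y1 u‖ ^ 2) := by
    intro u
    rw [show (2 : ℝ≥0∞) = ENNReal.ofReal 2 by simp, ← ENNReal.ofReal_mul (by norm_num),
      ← ENNReal.ofReal_mul (by norm_num), ← ENNReal.ofReal_add (by positivity) (by positivity)]
    refine ENNReal.ofReal_le_ofReal ?_
    have h3 : QY b Y u - QY b Y1 u = (bl b u - QY b Y1 u) - (bl b u - QY b Y u) := by ring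
    rw [h3]
    have h4 := norm_sub_le (bl b u - QY b Y1 u) (bl b u - QY b Y u)
    have h5 : ‖bl b u - QY b Y1 u - (bl b u - QY b Y u)‖ ^ 2 ≤
        (‖bl b u - QY b Y1 u‖ + ‖bl b u - QY b Y u‖) ^ 2 := by gcongr
    nlinarith [sq_nonneg (‖bl b u - QY b Y1 u‖ - ‖bl b u - QY b Y u‖)]
  have hmeas : ∀ Y : ℕ, AEMeasurable (fun u => ENNReal.ofReal (‖bl b u - QY b Y u‖ ^ 2))
      (volume.restrict (Set.Icc a (a + T))) := fun Y =>
    ((((boundary hb).1.sub (continuous_QY hb Y).measurable.aemeasurable).norm.pow_const 2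
      ).ennreal_ofReal).restrict
  refine (lintegral_mono hpt).trans ?_
  rw [lintegral_add_left' ((hmeas Y).const_mul 2), lintegral_const_mul'' _ (hmeas Y),
    lintegral_const_mul'' _ (hmeas Y1)]
  have b1 := dist_win hb (h1.trans h) (a := a) hT
  have b2 := dist_win hb h1 (a := a) hT
  have b1' : ENNReal.ofReal (2 * (64800 * M ^ 2 / Real.log Y) * T) ≤
      ENNReal.ofReal (2 * (64800 * M ^ 2 / Real.log Y1) * T) := by
    refine ENNReal.ofReal_le_ofReal ?_
    gcongr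
  calc _ ≤ 2 * ENNReal.ofReal (2 * (64800 * M ^ 2 / Real.log Y1) * T) +
        2 * ENNReal.ofReal (2 * (64800 * M ^ 2 / Real.log Y1) * T) := by
        gcongr
        exact b1.trans b1'
    _ = ENNReal.ofReal (T * (8 * (64800 * M ^ 2 / Real.log Y1))) := by
        rw [show (2 : ℝ≥0∞) = ENNReal.ofReal 2 by simp, ← ENNReal.ofReal_mul (by norm_num),
          ← ENNReal.ofReal_add (by positivity) (by positivity)]
        congr 1
        ring

end Pool.Agent.R385.JD
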