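import Pool.Agent.R385.JD.Indep

/-!
# Positive lower density
-/

set_option autoImplicit false

namespace Pool.Agent.R385.JD

open MeasureTheory Filter Topology
open Pool.Agent.TH339.MP
open Pool.Agent.R409.ED
open HB (lin continuous_lin)
open scoped ENNReal

variable {M : ℝ}

/-- a continuous cut-off -/
noncomputable def bump {n : ℕ} (ε : ℝ) (z w : Fin n → ℂ) : ℝ := max 0 (1 - 3 / ε * ‖w - z‖)

lemma continuous_bump {n : ℕ} (ε : ℝ) (z : Fin n → ℂ) : Continuous (bump ε z) := by
  unfold bump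
  fun_prop

lemma bump_nonneg {n : ℕ} (ε : ℝ) (z w : Fin n → ℂ) : 0 ≤ bump ε z w := le_max_left _ _

lemma bump_le {n : ℕ} {ε : ℝ} (hε : 0 < ε) (z w : Fin n → ℂ) : bump ε z w ≤ 1 :=
  max_le zero_le_one (by
    have : 0 ≤ 3 / ε * ‖w - z‖ := by positivity
    linarith)

lemma bump_pos {n : ℕ} {ε : ℝ} (hε : 0 < ε) {z w : Fin n → ℂ} (h : ‖w - z‖ < ε / 3) :
    0 < bump ε z w := by
  refine lt_max_of_lt_right ?_
  have : 3 / ε * ‖w - z‖ < 3 / ε * (ε / 3) := by
    have : 0 < 3 / ε := by positivity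
    gcongr
  have h2 : 3 / ε * (ε / 3) = 1 := by field_simp
  linarith

lemma of_bump {n : ℕ} {ε : ℝ} (hε : 0 < ε) {z w : Fin n → ℂ} (h : bump ε z w ≠ 0) :
    ‖w - z‖ < ε / 3 := by
  by_contra hn
  push Not at hn
  refine h (max_eq_left ?_)
  have h1 : 3 / ε * (ε / 3) ≤ 3 / ε * ‖w - z‖ := by gcongr
  have h2 : 3 / ε * (ε / 3) = 1 := by field_simp
  linarith

/-- the boundary values come near every vector with positive lower density -/
theorem lower {n : ℕ} {b : Fin n → PP → ℂ} (hb : ∀ j x, ‖b j x‖ ≤ M / (x.2 + 1 : ℕ)) (hM : 0 ≤ M)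
    (hnd : ∀ c : Fin n → ℂ, c ≠ 0 →
      ¬ Summable fun p : Nat.Primes => ‖∑ j, c j * (b j (p, 0) * (wt 1 (p, 0) : ℂ))‖)
    (z : Fin n → ℂ) {ε : ℝ} (hε : 0 < ε) :
    ∃ δ : ℝ, 0 < δ ∧ ∃ T0 : ℝ, ∀ a T : ℝ, T0 ≤ T →
      ENNReal.ofReal (δ * T) ≤ volume {t ∈ Set.Icc a (a + T) | ∀ j, ‖bl (b j) t - z j‖ < ε} := by
  classical
  set A : ℝ := n * (9 / ε ^ 2) * (8 * (64800 * M ^ 2)) with hA
  have hA0 : 0 ≤ A := by positivity
  -- thresholds
  have hlog : Tendsto (fun Y : ℕ => Real.log Y) atTop atTop :=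
    Real.tendsto_log_atTop.comp tendsto_natCast_atTop_atTop
  obtain ⟨Y0, hY0⟩ := eventually_atTop.1 (hlog.eventually_ge_atTop (4 * A + 1))
  obtain ⟨Y1, hY1, θ, hθ⟩ := attain hb hM hnd z (ε := ε / 6) (by positivity) (max 2 Y0)
  have hY12 : 2 ≤ Y1 := (le_max_left _ _).trans hY1
  have hlY1 : 4 * A + 1 ≤ Real.log Y1 := hY0 Y1 ((le_max_right _ _).trans hY1)
  set F : UnitAddTorus (PY Y1) → (Fin n → ℂ) := fun θ j => SY (b j) Y1 θ with hF
  have hFc : Continuous F := continuous_pi fun j => continuous_SY (hb j) Y1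
  set G : UnitAddTorus (PY Y1) → ℝ := fun θ => bump ε z (F θ) with hG
  have hGc : Continuous G := (continuous_bump ε z).comp hFc
  have hGθ : 0 < G θ := by
    refine bump_pos hε ?_
    refine lt_of_le_of_lt ((pi_norm_le_iff_of_nonneg (show (0 : ℝ) ≤ ε / 6 by positivity)).2
      fun j => (hθ j).le) (by linarith)
  set m : ℝ := ∫ θ, G θ with hm
  have hm0 : 0 < m := by
    refine hGc.integral_pos_of_hasCompactSupport_nonneg_nonzero
      (HasCompactSupport.of_compactSpace _) (fun θ => bump_nonneg _ _ _) hGθ.ne'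
  have hm1 : Tendsto (rav fun t => G (lin (lY Y1) t)) WF (𝓝 m) := kwR Y1 hGc
  clear_value m A
  obtain ⟨Y2, hY2⟩ := eventually_atTop.1 (hlog.eventually_ge_atTop (4 * A / m + 1))
  set Y : ℕ := max Y1 Y2 with hY
  have h1Y : Y1 ≤ Y := le_max_left _ _
  have hlY : 4 * A / m + 1 ≤ Real.log Y := hY2 Y (le_max_right _ _)
  have hmY : ∫ θ : UnitAddTorus (PY Y), G (rs h1Y θ) = m := by
    have h2 := kwR Y (G := fun θ => G (rs h1Y θ)) (hGc.comp (continuous_rs h1Y))
    exact tendsto_nhds_unique (h2.congr fun x => rfl) hm1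
  set H : (Fin n → ℂ) → ℝ := fun w => 9 / ε ^ 2 * ∑ j, ‖w j‖ ^ 2 with hH
  have hHc : Continuous H := by
    rw [hH]
    fun_prop
  have hprod := indep hb h1Y hGc hHc
  rw [hmY] at hprod
  have hHint : ∫ θ : UnitAddTorus (PY Y), H (fun j => RY (b j) Y1 Y θ) ≤ 1 / 4 := by
    have hi : ∀ j ∈ (Finset.univ : Finset (Fin n)),
        Integrable (fun θ : UnitAddTorus (PY Y) => ‖RY (b j) Y1 Y θ‖ ^ 2) volume := fun j _ =>
      ((continuous_RY (hb j) Y1 Y).norm.pow 2).integrable_of_hasCompactSupport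
        (HasCompactSupport.of_compactSpace _)
    simp only [hH]
    rw [integral_const_mul, integral_finsetSum _ hi]
    have h3 : ∑ j : Fin n, ∫ θ : UnitAddTorus (PY Y), ‖RY (b j) Y1 Y θ‖ ^ 2 ≤
        n * (8 * (64800 * M ^ 2 / Real.log Y1)) := by
      refine (Finset.sum_le_sum fun j _ => RY_sq (hb j) hY12 h1Y).trans ?_
      rw [Finset.sum_const, Finset.card_univ, Fintype.card_fin, nsmul_eq_mul]
    calc 9 / ε ^ 2 * ∑ j : Fin n, ∫ θ : UnitAddTorus (PY Y), ‖RY (b j) Y1 Y θ‖ ^ 2
        ≤ 9 / ε ^ 2 * (n * (8 * (64800 * M ^ 2 / Real.log Y1))) := by gcongr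
      _ = A / Real.log Y1 := by rw [hA]; ring
      _ ≤ 1 / 4 := by
          rw [div_le_iff₀ (by linarith)]
          linarith
  have h2 := kwR Y (G := fun θ => G (rs h1Y θ) * H (fun j => RY (b j) Y1 Y θ))
    ((hGc.comp (continuous_rs h1Y)).mul
      (hHc.comp (continuous_pi fun j => continuous_RY (hb j) Y1 Y)))
  rw [hprod] at h2
  have h2' : m * ∫ θ : UnitAddTorus (PY Y), H (fun j => RY (b j) Y1 Y θ) < m / 2 := by
    nlinarith
  obtain ⟨Ta, hTa⟩ := of_ev (hm1.eventually (lt_mem_nhds (show 7 * m / 8 < m by linarith)))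
  obtain ⟨Tb, hTb⟩ := of_ev (h2.eventually (gt_mem_nhds h2'))
  refine ⟨m / 8, by linarith, max 1 (max Ta Tb), fun a T hT => ?_⟩
  have hT1 : 1 ≤ T := (le_max_left _ _).trans hT
  have hT0 : 0 < T := by linarith
  have ga := hTa a T (((le_max_left _ _).trans (le_max_right _ _)).trans hT)
  have gb := hTb a T (((le_max_right _ _).trans (le_max_right _ _)).trans hT)
  unfold rav at ga gb
  simp only at ga gb
  rw [lt_inv_mul_iff₀ hT0] at ga
  rw [inv_mul_lt_iff₀ hT0] at gb
  rw [intervalIntegral.integral_of_le (by linarith), ← integral_Icc_eq_integral_Ioc] at ga gb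
  set W := Set.Icc a (a + T) with hW
  set f1 : ℝ → ℝ := fun t => G (lin (lY Y1) t) with hf1
  set f2 : ℝ → ℝ := fun t => G (lin (lY Y1) t) * H (fun j => RY (b j) Y1 Y (lin (lY Y) t)) with hf2
  set f3 : ℝ → ℝ := fun t => 9 / ε ^ 2 * ∑ j, ‖bl (b j) t - QY (b j) Y t‖ ^ 2 with hf3
  have hH0 : ∀ w, 0 ≤ H w := fun w => by simp only [hH]; positivity
  have hf1c : Continuous f1 := hGc.comp (continuous_lin _)
  have hf2c : Continuous f2 := hf1c.mul (hHc.comp (continuous_pi fun j =>
    (continuous_RY (hb j) Y1 Y).comp (continuous_lin _)))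
  have hf1n : ∀ t, 0 ≤ f1 t := fun t => bump_nonneg _ _ _
  have hf2n : ∀ t, 0 ≤ f2 t := fun t => mul_nonneg (bump_nonneg _ _ _) (hH0 _)
  have hf3n : ∀ t, 0 ≤ f3 t := fun t => by simp only [hf3]; positivity
  set B : Set ℝ := {t | ∀ j, ‖bl (b j) t - z j‖ < ε} with hB
  have hBm : NullMeasurableSet B volume := by
    have : B = ⋂ j, {t | ‖bl (b j) t - z j‖ < ε} := by
      ext t; simp [hB]
    rw [this]
    exact NullMeasurableSet.iInter fun j =>
      nullMeasurableSet_lt ((boundary (hb j)).1.sub aemeasurable_const).norm aemeasurable_const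
  -- the pointwise inequality
  have hpt : ∀ t, f1 t ≤ B.indicator (fun _ => (1 : ℝ)) t + f2 t + f3 t := by
    intro t
    by_cases htB : t ∈ B
    · rw [Set.indicator_of_mem htB]
      have := bump_le hε z (F (lin (lY Y1) t))
      have e : f1 t = bump ε z (F (lin (lY Y1) t)) := rfl
      linarith [hf2n t, hf3n t]
    · rw [Set.indicator_of_notMem htB, zero_add]
      by_cases h0 : bump ε z (F (lin (lY Y1) t)) = 0
      · have e : f1 t = 0 := h0
        linarith [hf2n t, hf3n t]
      · have h4 := of_bump hε h0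
        have htB' : ∃ j, ε ≤ ‖bl (b j) t - z j‖ := by
          by_contra hcon
          push Not at hcon
          exact htB hcon
        obtain ⟨j, hj⟩ := htB'
        have h5 : ‖SY (b j) Y1 (lin (lY Y1) t) - z j‖ < ε / 3 :=
          lt_of_le_of_lt (norm_le_pi_norm (F (lin (lY Y1) t) - z) j) h4
        rw [SY_lin (hb j)] at h5
        have h6 : bl (b j) t - z j = (bl (b j) t - QY (b j) Y t) +
            (QY (b j) Y t - QY (b j) Y1 t) + (QY (b j) Y1 t - z j) := by ring
        have h7 : ε / 3 ≤ ‖bl (b j) t - QY (b j) Y t‖ ∨ ε / 3 ≤ ‖QY (b j) Y t - QY (b j) Y1 t‖ := by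
          by_contra hcon
          push Not at hcon
          rw [h6] at hj
          have := norm_add₃_le (a := bl (b j) t - QY (b j) Y t)
            (b := QY (b j) Y t - QY (b j) Y1 t) (c := QY (b j) Y1 t - z j)
          linarith [hcon.1, hcon.2]
        have key : ∀ r : ℝ, ε / 3 ≤ r → 1 ≤ 9 / ε ^ 2 * r ^ 2 := by
          intro r hr
          have : (ε / 3) ^ 2 ≤ r ^ 2 := by gcongr
          calc (1 : ℝ) = 9 / ε ^ 2 * (ε / 3) ^ 2 := by field_simp; norm_num
            _ ≤ _ := by gcongr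
        have hle1 := bump_le hε z (F (lin (lY Y1) t))
        have e1 : f1 t = bump ε z (F (lin (lY Y1) t)) := rfl
        rcases h7 with h7 | h7
        · have h8 : 1 ≤ f3 t := by
            refine (key _ h7).trans ?_
            simp only [hf3]
            gcongr
            exact Finset.single_le_sum (f := fun j => ‖bl (b j) t - QY (b j) Y t‖ ^ 2)
              (fun _ _ => by positivity) (Finset.mem_univ j)
          linarith [hf2n t]
        · have h8 : 1 ≤ H (fun j => RY (b j) Y1 Y (lin (lY Y) t)) := by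
            refine (key _ h7).trans ?_
            simp only [hH]
            gcongr
            have e3 : ‖QY (b j) Y t - QY (b j) Y1 t‖ ^ 2 =
                ‖RY (b j) Y1 Y (lin (lY Y) t)‖ ^ 2 := by
              rw [RY_lin (hb j) h1Y]
            rw [e3]
            exact Finset.single_le_sum (f := fun j => ‖RY (b j) Y1 Y (lin (lY Y) t)‖ ^ 2)
              (fun _ _ => by positivity) (Finset.mem_univ j)
          have h9 : f1 t ≤ f2 t := by
            simp only [hf1, hf2]
            exact le_mul_of_one_le_right (bump_nonneg _ _ _) h8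
          linarith [hf3n t]
  -- integrate
  have hfin : volume W < ⊤ := by rw [hW, Real.volume_Icc]; exact ENNReal.ofReal_lt_top
  have i1 : ENNReal.ofReal (T * (7 * m / 8)) ≤ ∫⁻ t in W, ENNReal.ofReal (f1 t) := by
    rw [← ofReal_integral_eq_lintegral_ofReal
      (hf1c.continuousOn.integrableOn_compact isCompact_Icc) (Eventually.of_forall hf1n)]
    exact ENNReal.ofReal_le_ofReal ga.le
  have i2 : ∫⁻ t in W, ENNReal.ofReal (f2 t) ≤ ENNReal.ofReal (T * (m / 2)) := by
    rw [← ofReal_integral_eq_lintegral_ofReal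
      (hf2c.continuousOn.integrableOn_compact isCompact_Icc) (Eventually.of_forall hf2n)]
    exact ENNReal.ofReal_le_ofReal gb.le
  have hmj : ∀ j, AEMeasurable (fun t => ENNReal.ofReal (‖bl (b j) t - QY (b j) Y t‖ ^ 2))
      (volume.restrict W) := fun j =>
    ((((boundary (hb j)).1.sub (continuous_QY (hb j) Y).measurable.aemeasurable).norm.pow_const 2
      ).ennreal_ofReal).restrict
  have hY2' : 2 ≤ Y := hY12.trans h1Y
  have i3 : ∫⁻ t in W, ENNReal.ofReal (f3 t) ≤ ENNReal.ofReal (T * (m / 8)) := by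
    have e1 : ∀ t, ENNReal.ofReal (f3 t) = ENNReal.ofReal (9 / ε ^ 2) *
        ∑ j, ENNReal.ofReal (‖bl (b j) t - QY (b j) Y t‖ ^ 2) := by
      intro t
      simp only [hf3]
      rw [ENNReal.ofReal_mul (by positivity), ENNReal.ofReal_sum_of_nonneg fun _ _ => by positivity]
    simp_rw [e1]
    rw [lintegral_const_mul'' _ (Finset.aemeasurable_fun_sum _ fun j _ => hmj j),
      lintegral_finsetSum' _ fun j _ => hmj j]
    have e2 : ∑ j, ∫⁻ t in W, ENNReal.ofReal (‖bl (b j) t - QY (b j) Y t‖ ^ 2) ≤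
        ENNReal.ofReal (n * (2 * (64800 * M ^ 2 / Real.log Y) * T)) := by
      refine (Finset.sum_le_sum fun j _ => dist_win (hb j) hY2' hT1).trans ?_
      rw [Finset.sum_const, Finset.card_univ, Fintype.card_fin, nsmul_eq_mul,
        ENNReal.ofReal_mul (p := (n : ℝ)) (Nat.cast_nonneg _), ENNReal.ofReal_natCast]
    refine (mul_le_mul_right e2 _).trans ?_
    rw [← ENNReal.ofReal_mul (by positivity)]
    refine ENNReal.ofReal_le_ofReal ?_
    have hL : 0 < Real.log Y := by
      have : 0 ≤ 4 * A / m := by positivity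
      linarith
    have e3 : 9 / ε ^ 2 * (n * (2 * (64800 * M ^ 2 / Real.log Y) * T)) =
        T * (A / 4 / Real.log Y) := by
      rw [hA]; ring
    rw [e3]
    refine mul_le_mul_of_nonneg_left ?_ hT0.le
    rw [div_le_iff₀ hL]
    have h10 : 4 * A / m ≤ Real.log Y := by linarith
    rw [div_le_iff₀ hm0] at h10
    nlinarith
  have i4 : ∫⁻ t in W, ENNReal.ofReal (f1 t) ≤
      volume (B ∩ W) + (∫⁻ t in W, ENNReal.ofReal (f2 t)) + ∫⁻ t in W, ENNReal.ofReal (f3 t) := by
    have e1 : ∀ t, ENNReal.ofReal (f1 t) ≤ B.indicator (fun _ => (1 : ℝ≥0∞)) t +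
        ENNReal.ofReal (f2 t) + ENNReal.ofReal (f3 t) := by
      intro t
      refine (ENNReal.ofReal_le_ofReal (hpt t)).trans ?_
      rw [ENNReal.ofReal_add (add_nonneg (Set.indicator_nonneg (fun _ _ => zero_le_one) _) (hf2n t))
        (hf3n t), ENNReal.ofReal_add (Set.indicator_nonneg (fun _ _ => zero_le_one) _) (hf2n t)]
      gcongr
      by_cases htB : t ∈ B
      · simp [Set.indicator_of_mem htB]
      · simp [Set.indicator_of_notMem htB]
    refine (lintegral_mono e1).trans (le_of_eq ?_)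
    have m2 : AEMeasurable (fun t => ENNReal.ofReal (f2 t)) (volume.restrict W) :=
      (hf2c.measurable.ennreal_ofReal).aemeasurable
    have m3 : AEMeasurable (fun t => ENNReal.ofReal (f3 t)) (volume.restrict W) := by
      refine AEMeasurable.ennreal_ofReal ?_
      refine AEMeasurable.const_mul ?_ _
      exact Finset.aemeasurable_fun_sum _ fun j _ =>
        (((boundary (hb j)).1.sub (continuous_QY (hb j) Y).measurable.aemeasurable).norm.pow_const 2
          ).restrict
    rw [lintegral_add_right' _ m3, lintegral_add_right' _ m2,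
      lintegral_indicator_const₀ (hBm.mono Measure.restrict_le_self) 1, one_mul,
      Measure.restrict_apply₀' (measurableSet_Icc.nullMeasurableSet)]
  have i5 : volume (B ∩ W) = volume {t ∈ W | ∀ j, ‖bl (b j) t - z j‖ < ε} := by
    congr 1
    ext t
    exact and_comm
  rw [← i5]
  by_contra hcon
  push Not at hcon
  have h11 : ENNReal.ofReal (T * (7 * m / 8)) <
      ENNReal.ofReal (m / 8 * T) + ENNReal.ofReal (T * (m / 2)) + ENNReal.ofReal (T * (m / 8)) := by
    refine lt_of_le_of_lt (i1.trans (i4.trans (add_le_add (add_le_add le_rfl i2) i3))) ?_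
    exact ENNReal.add_lt_add_right ENNReal.ofReal_ne_top
      (ENNReal.add_lt_add_right ENNReal.ofReal_ne_top hcon)
  rw [← ENNReal.ofReal_add (by positivity) (by positivity),
    ← ENNReal.ofReal_add (by positivity) (by positivity)] at h11
  have h12 := (ENNReal.ofReal_lt_ofReal_iff (by positivity)).1 h11
  nlinarith

end Pool.Agent.R385.JD
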