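import Mathlib

/-!
# Rounding and convexity
-/

set_option autoImplicit false

namespace Pool.Agent.R385.JD

open Filter Topology

lemma exists_perp (a : ℂ) (ha : ‖a‖ ≤ 1) : ∃ d : ℂ, ‖d‖ ≤ 1 ∧ ‖a + d‖ = 1 ∧ ‖a - d‖ = 1 := by
  by_cases h0 : a = 0
  · exact ⟨1, by simp, by simp [h0], by simp [h0]⟩
  · have hn : 0 < ‖a‖ := norm_pos_iff.2 h0
    set r : ℝ := Real.sqrt (1 - ‖a‖ ^ 2) / ‖a‖ with hr
    have h1 : 0 ≤ 1 - ‖a‖ ^ 2 := by nlinarith
    have hr2 : r ^ 2 * ‖a‖ ^ 2 = 1 - ‖a‖ ^ 2 := by
      rw [hr, div_pow, Real.sq_sqrt h1]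
      field_simp
    have key : ∀ s : ℝ, s ^ 2 = 1 → ‖a + s * (a * (r * Complex.I))‖ = 1 := by
      intro s hs
      have h2 : a + s * (a * (r * Complex.I)) = a * (1 + (s * r : ℝ) * Complex.I) := by
        push_cast; ring
      rw [h2, norm_mul, ← sq_eq_sq₀ (by positivity) (by norm_num), mul_pow,
        ← Complex.normSq_eq_norm_sq (1 + _)]
      have h3 : Complex.normSq (1 + ((s * r : ℝ) : ℂ) * Complex.I) = 1 + (s * r) ^ 2 := by
        have := Complex.normSq_add_mul_I 1 (s * r)
        push_cast at this ⊢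
        rw [this]; ring
      rw [h3, mul_pow, hs]
      nlinarith
    refine ⟨a * (r * Complex.I), ?_, ?_, ?_⟩
    · rw [norm_mul, norm_mul, Complex.norm_I, mul_one, Complex.norm_real]
      rw [← sq_le_sq₀ (by positivity) (by norm_num), mul_pow, Real.norm_eq_abs, sq_abs]
      nlinarith [sq_nonneg ‖a‖]
    · have := key 1 (by norm_num)
      simpa using this
    · have := key (-1) (by norm_num)
      simpa [sub_eq_add_neg] using this

variable {E : Type*} [NormedAddCommGroup E] [InnerProductSpace ℂ E] {ι : Type*}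

/-- coefficients in the closed disc can be replaced by coefficients on the circle, with a small
error -/
theorem round (F : Finset ι) (v : ι → E) (a : ι → ℂ) (ha : ∀ i, ‖a i‖ ≤ 1) :
    ∃ w : ι → ℂ, (∀ i, ‖w i‖ = 1) ∧
      ‖∑ i ∈ F, (w i - a i) • v i‖ ^ 2 ≤ ∑ i ∈ F, ‖v i‖ ^ 2 := by
  classical
  induction F using Finset.induction_on with
  | empty => exact ⟨fun _ => 1, by simp, by simp⟩
  | @insert i F hi ih =>
    obtain ⟨w, hw, hE⟩ := ih
    obtain ⟨d, hd, hd1, hd2⟩ := exists_perp (a i) (ha i)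
    set e := ∑ i ∈ F, (w i - a i) • v i with he
    have hstep : ∃ s : ℂ, ‖s‖ = 1 ∧ (‖a i + s * d‖ = 1) ∧
        ‖(s * d) • v i + e‖ ^ 2 ≤ ‖v i‖ ^ 2 + ‖e‖ ^ 2 := by
      have hnd : ‖d • v i‖ ^ 2 ≤ ‖v i‖ ^ 2 := by
        rw [norm_smul, mul_pow]
        nlinarith [sq_nonneg ‖v i‖, norm_nonneg d, pow_le_one₀ (n := 2) (norm_nonneg d) hd]
      by_cases h : RCLike.re (inner ℂ (d • v i) e) ≤ 0
      · refine ⟨1, by simp, by simpa using hd1, ?_⟩
        rw [one_mul, @norm_add_sq ℂ]
        linarith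
      · refine ⟨-1, by simp, by simpa [sub_eq_add_neg] using hd2, ?_⟩
        rw [neg_one_mul, neg_smul, @norm_add_sq ℂ, inner_neg_left, norm_neg, map_neg]
        push Not at h
        linarith
    obtain ⟨s, _, hs1, hs2⟩ := hstep
    refine ⟨Function.update w i (a i + s * d), fun j => ?_, ?_⟩
    · by_cases hj : j = i
      · subst hj; simpa using hs1
      · simpa [hj] using hw j
    · rw [Finset.sum_insert hi, Finset.sum_insert hi]
      have h1 : ∑ j ∈ F, (Function.update w i (a i + s * d) j - a j) • v j = e := by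
        rw [he]
        refine Finset.sum_congr rfl fun j hj => ?_
        rw [Function.update_of_ne (by rintro rfl; exact hi hj)]
      rw [h1, Function.update_self, add_sub_cancel_left]
      linarith

/-- the finite combinations with coefficients in the disc are dense -/
theorem disc_dense {n : ℕ} (P : Set ι) (v : ι → EuclideanSpace ℂ (Fin n))
    (hv : ∀ c : Fin n → ℂ, c ≠ 0 → ¬ Summable fun i : P => ‖∑ j, c j * v i j‖)
    (z : EuclideanSpace ℂ (Fin n)) {ε : ℝ} (hε : 0 < ε) :
    ∃ (F : Finset ι) (a : ι → ℂ), (∀ i ∈ F, i ∈ P) ∧ (∀ i, ‖a i‖ ≤ 1) ∧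
      ‖∑ i ∈ F, a i • v i - z‖ < ε := by
  classical
  set C : Set (EuclideanSpace ℂ (Fin n)) := {x | ∃ (F : Finset ι) (a : ι → ℂ),
    (∀ i ∈ F, i ∈ P) ∧ (∀ i, ‖a i‖ ≤ 1) ∧ x = ∑ i ∈ F, a i • v i} with hC
  have hconv : Convex ℝ C := by
    rintro x ⟨F, a, hF, ha, rfl⟩ y ⟨G, b, hG, hb, rfl⟩ s t hs ht hst
    refine ⟨F ∪ G, fun i => (s : ℂ) * (if i ∈ F then a i else 0) +
      (t : ℂ) * (if i ∈ G then b i else 0), ?_, ?_, ?_⟩
    · intro i hi
      rcases Finset.mem_union.1 hi with h | h
      · exact hF i h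
      · exact hG i h
    · intro i
      refine (norm_add_le _ _).trans ?_
      rw [norm_mul, norm_mul, Complex.norm_real, Complex.norm_real, Real.norm_of_nonneg hs,
        Real.norm_of_nonneg ht]
      have h1 : ‖(if i ∈ F then a i else 0)‖ ≤ 1 := by split_ifs; exacts [ha i, by simp]
      have h2 : ‖(if i ∈ G then b i else 0)‖ ≤ 1 := by split_ifs; exacts [hb i, by simp]
      nlinarith
    · simp_rw [add_smul, Finset.sum_add_distrib, mul_smul, ite_smul, zero_smul, smul_ite, smul_zero]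
      rw [← Finset.sum_filter, ← Finset.sum_filter]
      have h1 : (F ∪ G).filter (· ∈ F) = F := by
        ext i; simp
      have h2 : (F ∪ G).filter (· ∈ G) = G := by
        ext i; simp
      rw [h1, h2, Finset.smul_sum, Finset.smul_sum]
      rfl
  have h0 : (0 : EuclideanSpace ℂ (Fin n)) ∈ C := ⟨∅, fun _ => 0, by simp, by simp, by simp⟩
  have hz : z ∈ closure C := by
    by_contra hz
    obtain ⟨f, u, hf1, hf2⟩ := RCLike.geometric_hahn_banach_closed_point (𝕜 := ℂ) hconv.closure
      isClosed_closure hz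
    have hu : 0 < u := by
      have := hf1 0 (subset_closure h0)
      simpa using this
    set c : Fin n → ℂ := fun j => f (EuclideanSpace.single j 1) with hc
    have hfc : ∀ x : EuclideanSpace ℂ (Fin n), f x = ∑ j, c j * x j := by
      intro x
      have hx : x = ∑ j, x j • EuclideanSpace.single j (1 : ℂ) := by
        ext k
        simp [Finset.sum_apply, Pi.single_apply]
      conv_lhs => rw [hx]
      rw [map_sum]
      refine Finset.sum_congr rfl fun j _ => ?_
      rw [map_smul, smul_eq_mul, mul_comm]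
    have hc0 : c ≠ 0 := by
      intro h
      have h1 : f z = 0 := by rw [hfc, h]; simp
      rw [h1] at hf2
      simp at hf2
      linarith
    refine hv c hc0 ?_
    refine summable_of_sum_le (c := u) (fun _ => norm_nonneg _) fun F => ?_
    set a : ι → ℂ := fun i => if ∑ j, c j * v i j = 0 then 0 else
      (starRingEnd ℂ) (∑ j, c j * v i j) / ‖∑ j, c j * v i j‖ with ha
    have hmem : ∑ i ∈ F.map (Function.Embedding.subtype _), a i • v i ∈ C := by
      refine ⟨_, a, fun i hi => ?_, fun i => ?_, rfl⟩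
      · obtain ⟨y, _, rfl⟩ := Finset.mem_map.1 hi
        exact y.2
      · rw [ha]
        by_cases h : ∑ j, c j * v i j = 0
        · simp only [h, if_true]; simp
        · simp only [h, if_false]
          rw [norm_div, RCLike.norm_conj, Complex.norm_real, norm_norm, div_self (norm_ne_zero_iff.2 h)]
    have h1 := hf1 _ (subset_closure hmem)
    rw [map_sum, map_sum, Finset.sum_map] at h1
    refine le_trans (le_of_eq ?_) h1.le
    refine Finset.sum_congr rfl fun i _ => ?_
    rw [map_smul, smul_eq_mul, hfc]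
    simp only [Function.Embedding.subtype_apply, ha]
    by_cases h : ∑ j, c j * v i j = 0
    · simp [h]
    · simp only [h, if_false]
      have hn : (‖∑ j, c j * v (i : ι) j‖ : ℂ) ≠ 0 := by
        exact_mod_cast norm_ne_zero_iff.2 h
      have : (starRingEnd ℂ) (∑ j, c j * v (i : ι) j) / ‖∑ j, c j * v (i : ι) j‖ *
          ∑ j, c j * v (i : ι) j = ((‖∑ j, c j * v (i : ι) j‖ : ℝ) : ℂ) := by
        rw [div_mul_eq_mul_div, mul_comm, Complex.mul_conj, Complex.normSq_eq_norm_sq]
        push_cast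
        field_simp
      rw [this]
      simp
  obtain ⟨x, ⟨F, a, hF, ha, rfl⟩, hx⟩ := Metric.mem_closure_iff.1 hz ε hε
  refine ⟨F, a, hF, ha, ?_⟩
  rwa [dist_comm, dist_eq_norm] at hx

end Pool.Agent.R385.JD
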